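import Mathlib

/-!
# Project VQ, analytic part: a power saving for the partial sums gives a zero free half plane
-/

set_option autoImplicit false

namespace Pool.Agent.E8helper81.VQ

open Filter Topology Asymptotics Finset MeasureTheory

/-- the half plane -/
def HP (θ : ℝ) : Set ℂ := {s : ℂ | θ < s.re}

lemma isOpen_HP (θ : ℝ) : IsOpen (HP θ) := isOpen_lt continuous_const Complex.continuous_re

lemma preconn_HP (θ : ℝ) : IsPreconnected (HP θ) := by
  have h : Convex ℝ (HP θ) := convex_halfSpace_re_gt θ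
  exact h.isPreconnected

/-- the continuation of the Dirichlet series -/
lemma continuation {θ : ℝ} (hθ : 0 ≤ θ) (hθ1 : θ < 1) (a : ℕ → ℂ)
    (ha : (fun n : ℕ => ∑ k ∈ Icc 1 n, a k) =O[atTop] fun n : ℕ => (n : ℝ) ^ θ)
    (hs : ∀ s : ℂ, 1 < s.re → LSeriesSummable a s) :
    ∃ F : ℂ → ℂ, DifferentiableOn ℂ F (HP θ) ∧ ∀ s : ℂ, 1 < s.re → LSeries a s = F s := by
  set A : ℝ → ℂ := fun t => ∑ k ∈ Icc 1 ⌊t⌋₊, a k with hA
  refine ⟨fun s => s * mellin A (-s), ?_, ?_⟩
  · intro s hs1
    have hs2 : θ < s.re := hs1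
    have hloc : LocallyIntegrableOn A (Set.Ioi 0) := by
      have h1 := locallyIntegrableOn_mul_sum_Icc (𝕜 := ℂ) a (a := 0) (m := 1) le_rfl
        (g := fun _ : ℝ => (1 : ℂ)) ((MeasureTheory.locallyIntegrable_const _).locallyIntegrableOn _)
      simp only [one_mul] at h1
      exact h1.mono_set Set.Ioi_subset_Ici_self
    have htop : A =O[atTop] (fun t : ℝ => t ^ (-(-θ))) := by
      rw [neg_neg]
      have h1 := ha.comp_tendsto (tendsto_nat_floor_atTop (α := ℝ))
      refine h1.trans ?_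
      refine IsBigO.of_bound 1 ?_
      filter_upwards [eventually_ge_atTop (1 : ℝ)] with t ht
      have ht0 : 0 ≤ t := by linarith
      rw [one_mul, Function.comp_apply, Real.norm_of_nonneg (by positivity),
        Real.norm_of_nonneg (by positivity)]
      exact Real.rpow_le_rpow (by positivity) (Nat.floor_le ht0) hθ
    have hbot : A =O[𝓝[>] 0] (fun t : ℝ => t ^ (-((-s).re - 1))) := by
      have h1 : A =ᶠ[𝓝[>] 0] fun _ => (0 : ℂ) := by
        have h2 : Set.Ioo (0 : ℝ) 1 ∈ 𝓝[>] (0 : ℝ) := Ioo_mem_nhdsGT one_pos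
        filter_upwards [h2] with t ht
        have h3 : ⌊t⌋₊ = 0 := Nat.floor_eq_zero.2 ht.2
        simp only [hA, h3]
        simp
      exact h1.trans_isBigO (isBigO_zero _ _)
    have hd := mellin_differentiableAt_of_isBigO_rpow hloc htop
      (by rw [Complex.neg_re]; linarith) hbot (by linarith)
    have hd2 : DifferentiableAt ℂ (fun z : ℂ => mellin A (-z)) s := by
      have h1 : DifferentiableAt ℂ (fun z : ℂ => -z) s := differentiableAt_id.neg
      exact DifferentiableAt.comp (g := mellin A) s hd h1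
    exact (differentiableAt_id.mul hd2).differentiableWithinAt
  · intro s hs1
    rw [LSeries_eq_mul_integral a hθ (hθ1.trans hs1) (hs s hs1) ha]
    congr 1
    unfold mellin
    rw [← integral_Ici_eq_integral_Ioi]
    have h1 : ∫ t in Set.Ioi (0 : ℝ), (t : ℂ) ^ (-s - 1) • A t =
        ∫ t in Set.Ici (1 : ℝ), (t : ℂ) ^ (-s - 1) • A t := by
      refine setIntegral_eq_of_subset_of_forall_sdiff_eq_zero measurableSet_Ioi ?_ ?_
      · intro t ht
        have ht' : (1 : ℝ) ≤ t := ht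
        exact lt_of_lt_of_le one_pos ht'
      · rintro t ⟨ht1, ht2⟩
        have h3 : ⌊t⌋₊ = 0 := Nat.floor_eq_zero.2 (not_le.1 ht2)
        simp only [hA, h3]
        simp
    rw [h1]
    refine setIntegral_congr_fun measurableSet_Ici fun t _ => ?_
    show A t * (t : ℂ) ^ (-(s + 1)) = (t : ℂ) ^ (-s - 1) • A t
    rw [smul_eq_mul, mul_comm]
    congr 2
    ring

/-- an analytic linear differential equation prevents zeros -/
lemma no_zero {θ : ℝ} {f g p : ℂ → ℂ} (hf : DifferentiableOn ℂ f (HP θ))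
    (hg : DifferentiableOn ℂ g (HP θ)) (hp : DifferentiableOn ℂ p (HP θ))
    (he : ∀ s : ℂ, 1 < s.re → p s * deriv f s = g s * f s) (hθ : θ < 1)
    {s₁ : ℂ} (h1 : s₁ ∈ HP θ) (hf1 : f s₁ ≠ 0)
    {s₀ : ℂ} (h0 : s₀ ∈ HP θ) (hp0 : p s₀ ≠ 0) : f s₀ ≠ 0 := by
  have haf := hf.analyticOnNhd (isOpen_HP θ)
  have hag := hg.analyticOnNhd (isOpen_HP θ)
  have hap := hp.analyticOnNhd (isOpen_HP θ)
  have hadf : AnalyticOnNhd ℂ (deriv f) (HP θ) := haf.deriv
  have h2 : (2 : ℂ) ∈ HP θ := by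
    show θ < (2 : ℂ).re
    simp
    linarith
  have hid : Set.EqOn (p * deriv f) (g * f) (HP θ) := by
    refine (hap.mul hadf).eqOn_of_preconnected_of_eventuallyEq (hag.mul haf) (preconn_HP θ) h2 ?_
    have h3 : {s : ℂ | 1 < s.re} ∈ 𝓝 (2 : ℂ) :=
      (isOpen_lt continuous_const Complex.continuous_re).mem_nhds (by simp)
    filter_upwards [h3] with s hs
    exact he s hs
  intro hz
  have hfin : analyticOrderAt f s₀ ≠ ⊤ := by
    intro htop
    rw [analyticOrderAt_eq_top] at htop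
    have h4 := haf.eqOn_zero_of_preconnected_of_eventuallyEq_zero (preconn_HP θ) h0 htop
    exact hf1 (h4 h1)
  have hev : (p * deriv f) =ᶠ[𝓝 s₀] (g * f) :=
    Filter.eventuallyEq_of_mem ((isOpen_HP θ).mem_nhds h0) hid
  have ho := analyticOrderAt_congr hev
  rw [analyticOrderAt_mul (hap s₀ h0) (hadf s₀ h0), analyticOrderAt_mul (hag s₀ h0) (haf s₀ h0),
    (hap s₀ h0).analyticOrderAt_eq_zero.2 hp0, zero_add] at ho
  have hd := (haf s₀ h0).analyticOrderAt_deriv_add_one
  have hfs : (fun z => f z - f s₀) = f := by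
    funext z
    rw [hz, sub_zero]
  rw [hfs, ho] at hd
  -- order g + order f + 1 = order f
  obtain ⟨n, hn⟩ := ENat.ne_top_iff_exists.1 hfin
  rw [← hn] at hd
  rcases eq_or_ne (analyticOrderAt g s₀) ⊤ with hg' | hg'
  · rw [hg'] at hd
    simp at hd
  · obtain ⟨m, hm⟩ := ENat.ne_top_iff_exists.1 hg'
    rw [← hm] at hd
    have : m + n + 1 = n := by exact_mod_cast hd
    omega

end Pool.Agent.E8helper81.VQ
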