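import Mathlib

/-!
# Project VQ, arithmetic part: from the variance modulo `q m` to the classes modulo `q`
-/

set_option autoImplicit false

namespace Pool.Agent.E8helper81.VQ

open Finset

/-- `ψ(X; Q, a)`: the sum of `Λ(n)` over the positive integers `n ≤ X` with `n ≡ a` modulo `Q`. -/
noncomputable def psi (X : ℝ) (Q a : ℕ) : ℝ :=
  ∑ n ∈ (Icc 1 ⌊X⌋₊).filter (fun n => n ≡ a [MOD Q]), ArithmeticFunction.vonMangoldt n

/-- `G(X, Q)`: the sum of `(ψ(X; Q, a) - X / φ(Q))²` over the reduced residue classes. -/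
noncomputable def G (X : ℝ) (Q : ℕ) : ℝ :=
  ∑ a ∈ (range Q).filter (fun a => a.Coprime Q), (psi X Q a - X / (Nat.totient Q : ℝ)) ^ 2

/-- the classes modulo `q m` above the class `a` modulo `q` -/
def SS (q m a : ℕ) : Finset ℕ :=
  (range (q * m)).filter (fun A => A.Coprime (q * m) ∧ A ≡ a [MOD q])

lemma card_SS {q m a : ℕ} (hq : 0 < q) (hm : 0 < m) (ha : a.Coprime q) :
    (SS q m a).card * Nat.totient q = Nat.totient (q * m) := by
  have : NeZero q := ⟨hq.ne'⟩
  have : NeZero (q * m) := ⟨(Nat.mul_pos hq hm).ne'⟩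
  have hdvd : q ∣ q * m := Dvd.intro m rfl
  set f := ZMod.unitsMap hdvd with hf
  have hsurj := ZMod.unitsMap_surjective hdvd
  set y := ZMod.unitOfCoprime a ha with hy
  have h1 : (SS q m a).card = (univ.filter fun u : (ZMod (q * m))ˣ => f u = y).card := by
    symm
    refine card_bij (fun u _ => ((u : ZMod (q * m))).val) ?_ ?_ ?_
    · intro u hu
      have hu' : f u = y := (mem_filter.1 hu).2
      unfold SS
      rw [mem_filter, mem_range]
      refine ⟨ZMod.val_lt _, ZMod.val_coe_unit_coprime u, ?_⟩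
      rw [← ZMod.natCast_eq_natCast_iff, ZMod.natCast_val]
      have h2 : ((f u : (ZMod q)ˣ) : ZMod q) = ((y : (ZMod q)ˣ) : ZMod q) := by rw [hu']
      rw [hf, ZMod.unitsMap_val, hy, ZMod.coe_unitOfCoprime] at h2
      exact h2
    · intro u _ v _ huv
      exact Units.ext (ZMod.val_injective _ huv)
    · intro A hA
      unfold SS at hA
      rw [mem_filter, mem_range] at hA
      refine ⟨ZMod.unitOfCoprime A hA.2.1, ?_, ?_⟩
      · rw [mem_filter]
        refine ⟨mem_univ _, Units.ext ?_⟩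
        rw [hf, ZMod.unitsMap_val, hy, ZMod.coe_unitOfCoprime, ZMod.coe_unitOfCoprime,
          ZMod.cast_natCast hdvd]
        exact (ZMod.natCast_eq_natCast_iff _ _ _).2 hA.2.2
      · rw [ZMod.coe_unitOfCoprime, ZMod.val_natCast, Nat.mod_eq_of_lt hA.1]
  have h2 : ∀ z : (ZMod q)ˣ, (univ.filter fun u : (ZMod (q * m))ˣ => f u = z).card =
      (SS q m a).card := by
    intro z
    rw [h1]
    exact MonoidHom.card_fiber_eq_of_mem_range f (hsurj z) (hsurj y)
  have h3 := card_eq_sum_card_fiberwise (s := (univ : Finset (ZMod (q * m))ˣ))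
    (t := (univ : Finset (ZMod q)ˣ)) (f := fun u => f u) (fun _ _ => by simp)
  rw [card_univ, ZMod.card_units_eq_totient] at h3
  rw [h3]
  have h4 : ∀ z : (ZMod q)ˣ, (univ.filter fun u : (ZMod (q * m))ˣ => (fun u => f u) u = z).card =
      (SS q m a).card := h2
  rw [sum_congr rfl fun z _ => h4 z, sum_const, card_univ, ZMod.card_units_eq_totient, smul_eq_mul,
    mul_comm]

lemma card_SS_le {q m a : ℕ} : (SS q m a).card ≤ m := by
  have h1 : (SS q m a).card ≤ (range m).card := by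
    refine card_le_card_of_injOn (fun A => A / q) ?_ ?_
    · intro A hA
      unfold SS at hA
      rw [mem_coe, mem_filter, mem_range] at hA
      rw [mem_coe, mem_range]
      exact Nat.div_lt_of_lt_mul hA.1
    · intro A hA B hB hAB
      unfold SS at hA hB
      rw [mem_coe, mem_filter] at hA hB
      have h2 : A / q = B / q := hAB
      have h3 : A % q = B % q := hA.2.2.trans hB.2.2.symm
      rw [← Nat.div_add_mod A q, ← Nat.div_add_mod B q, h2, h3]
  rwa [card_range] at h1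

lemma sum_SS (X : ℝ) {q m a : ℕ} (hq : 0 < q) (hm : 0 < m) :
    ∑ A ∈ SS q m a, psi X (q * m) A =
      ∑ n ∈ (Icc 1 ⌊X⌋₊).filter (fun n => n ≡ a [MOD q] ∧ n.Coprime (q * m)),
        ArithmeticFunction.vonMangoldt n := by
  have hQ : 0 < q * m := Nat.mul_pos hq hm
  have hmem : ∀ n : ℕ, n % (q * m) ∈ SS q m a ↔ n ≡ a [MOD q] ∧ n.Coprime (q * m) := by
    intro n
    unfold SS
    rw [mem_filter, mem_range]
    have h1 : (n % (q * m)).Coprime (q * m) ↔ n.Coprime (q * m) := by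
      unfold Nat.Coprime
      rw [← Nat.gcd_rec, Nat.gcd_comm]
    have h2 : n % (q * m) ≡ a [MOD q] ↔ n ≡ a [MOD q] := by
      unfold Nat.ModEq
      rw [Nat.mod_mod_of_dvd _ (Dvd.intro m rfl)]
    rw [h1, h2]
    constructor
    · rintro ⟨_, h3, h4⟩
      exact ⟨h4, h3⟩
    · rintro ⟨h3, h4⟩
      exact ⟨Nat.mod_lt _ hQ, h4, h3⟩
  have h1 := sum_fiberwise_of_maps_to (s := (Icc 1 ⌊X⌋₊).filter (fun n => n % (q * m) ∈ SS q m a))
    (t := SS q m a) (g := fun n => n % (q * m)) (fun n hn => (mem_filter.1 hn).2)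
    (fun n => (ArithmeticFunction.vonMangoldt n : ℝ))
  have h2 : (Icc 1 ⌊X⌋₊).filter (fun n => n % (q * m) ∈ SS q m a) =
      (Icc 1 ⌊X⌋₊).filter (fun n => n ≡ a [MOD q] ∧ n.Coprime (q * m)) :=
    filter_congr fun n _ => hmem n
  rw [← h2, ← h1]
  refine sum_congr rfl fun A hA => ?_
  unfold psi
  refine sum_congr ?_ fun _ _ => rfl
  ext n
  rw [mem_filter, mem_filter, mem_filter]
  have hAlt : A < q * m := by
    unfold SS at hA
    exact mem_range.1 (mem_filter.1 hA).1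
  constructor
  · rintro ⟨h3, h4⟩
    have h5 : n % (q * m) = A := by
      have : n % (q * m) = A % (q * m) := h4
      rw [this, Nat.mod_eq_of_lt hAlt]
    refine ⟨⟨h3, ?_⟩, h5⟩
    rw [h5]
    exact hA
  · rintro ⟨⟨h3, _⟩, h4⟩
    refine ⟨h3, ?_⟩
    show n % (q * m) = A % (q * m)
    rw [Nat.mod_eq_of_lt hAlt]
    exact h4

/-- the prime powers which are not prime to `Q` -/
lemma bad_le (N Q : ℕ) (hQ : 0 < Q) :
    ∑ n ∈ (Icc 1 N).filter (fun n => ¬ n.Coprime Q), ArithmeticFunction.vonMangoldt n ≤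
      Nat.log 2 N * Real.log Q := by
  classical
  have h1 : ∑ n ∈ (Icc 1 N).filter (fun n => ¬ n.Coprime Q), ArithmeticFunction.vonMangoldt n ≤
      ∑ x ∈ (Q.primeFactors ×ˢ Icc 1 (Nat.log 2 N)).image (fun x => x.1 ^ x.2),
        ArithmeticFunction.vonMangoldt x := by
    rw [← sum_filter_ne_zero]
    refine sum_le_sum_of_subset_of_nonneg ?_ fun _ _ _ => ArithmeticFunction.vonMangoldt_nonneg
    intro n hn'
    rw [mem_filter, mem_filter, mem_Icc] at hn'
    obtain ⟨hn, hne⟩ := hn'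
    have hpp := ArithmeticFunction.vonMangoldt_ne_zero_iff.1 hne
    obtain ⟨p, k, hp, hk, rfl⟩ := hpp
    have hp' : p.Prime := hp.nat_prime
    rw [mem_image]
    refine ⟨(p, k), ?_, rfl⟩
    rw [mem_product, mem_Icc]
    refine ⟨?_, hk, ?_⟩
    · rw [Nat.mem_primeFactors]
      refine ⟨hp', ?_, hQ.ne'⟩
      by_contra hcon
      apply hn.2
      exact Nat.Coprime.pow_left k ((Nat.Prime.coprime_iff_not_dvd hp').2 hcon)
    · apply Nat.le_log_of_pow_le (by norm_num)
      exact (Nat.pow_le_pow_left hp'.two_le k).trans hn.1.2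
  refine h1.trans ?_
  have h2 : ∑ x ∈ (Q.primeFactors ×ˢ Icc 1 (Nat.log 2 N)).image (fun x => x.1 ^ x.2),
      ArithmeticFunction.vonMangoldt x ≤
      ∑ x ∈ Q.primeFactors ×ˢ Icc 1 (Nat.log 2 N), ArithmeticFunction.vonMangoldt (x.1 ^ x.2) := by
    exact sum_image_le_of_nonneg fun _ _ => ArithmeticFunction.vonMangoldt_nonneg
  refine h2.trans ?_
  rw [sum_product]
  have h3 : ∀ p ∈ Q.primeFactors, ∑ k ∈ Icc 1 (Nat.log 2 N),
      ArithmeticFunction.vonMangoldt (p ^ k) = Nat.log 2 N * Real.log p := by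
    intro p hp
    have hp' := Nat.prime_of_mem_primeFactors hp
    rw [sum_congr rfl fun k hk => by
      rw [ArithmeticFunction.vonMangoldt_apply_pow (by have := (mem_Icc.1 hk).1; omega),
        ArithmeticFunction.vonMangoldt_apply_prime hp']]
    rw [sum_const, Nat.card_Icc, nsmul_eq_mul]
    simp
  rw [sum_congr rfl h3, ← mul_sum]
  refine mul_le_mul_of_nonneg_left ?_ (Nat.cast_nonneg _)
  rw [← Real.log_prod (fun p hp => by
    have := (Nat.prime_of_mem_primeFactors hp).pos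
    positivity)]
  apply Real.log_le_log
  · refine prod_pos fun p hp => ?_
    exact_mod_cast (Nat.prime_of_mem_primeFactors hp).pos
  · have h4 : ∏ p ∈ Q.primeFactors, p ≤ Q := Nat.le_of_dvd hQ (Nat.prod_primeFactors_dvd Q)
    have h5 := (Nat.cast_le (α := ℝ)).2 h4
    rw [Nat.cast_prod] at h5
    exact h5

/-- **the inequality** -/
theorem main_ineq {X : ℝ} {q m a : ℕ} (hq : 0 < q) (hm : 0 < m) (ha : a.Coprime q) :
    |psi X q a - X / (Nat.totient q : ℝ)| ≤
      Real.sqrt (m * G X (q * m)) + Nat.log 2 ⌊X⌋₊ * Real.log ((q * m : ℕ) : ℝ) := by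
  classical
  have hQ : 0 < q * m := Nat.mul_pos hq hm
  have hφq : (0 : ℝ) < Nat.totient q := by exact_mod_cast Nat.totient_pos.2 hq
  have hφQ : (0 : ℝ) < Nat.totient (q * m) := by exact_mod_cast Nat.totient_pos.2 hQ
  -- the part prime to `q m`
  obtain ⟨P, hP⟩ : ∃ P, P = ∑ n ∈ (Icc 1 ⌊X⌋₊).filter (fun n => n ≡ a [MOD q] ∧ n.Coprime (q * m)),
        ArithmeticFunction.vonMangoldt n := ⟨_, rfl⟩
  have h1 : P - X / (Nat.totient q : ℝ) =
      ∑ A ∈ SS q m a, (psi X (q * m) A - X / (Nat.totient (q * m) : ℝ)) := by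
    rw [sum_sub_distrib, sum_SS X hq hm, ← hP, sum_const, nsmul_eq_mul]
    congr 1
    have h2 : ((SS q m a).card : ℝ) * Nat.totient q = Nat.totient (q * m) := by
      exact_mod_cast card_SS hq hm ha
    rw [← h2]
    have h3 : ((SS q m a).card : ℝ) ≠ 0 := by
      intro h0
      rw [h0, zero_mul] at h2
      exact hφQ.ne h2
    field_simp
  have h2 : (P - X / (Nat.totient q : ℝ)) ^ 2 ≤ m * G X (q * m) := by
    rw [h1]
    refine (sq_sum_le_card_mul_sum_sq).trans ?_
    have h3 : ∑ A ∈ SS q m a, (psi X (q * m) A - X / (Nat.totient (q * m) : ℝ)) ^ 2 ≤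
        G X (q * m) := by
      unfold G
      refine sum_le_sum_of_subset_of_nonneg ?_ fun _ _ _ => sq_nonneg _
      intro A hA
      unfold SS at hA
      rw [mem_filter] at hA ⊢
      exact ⟨hA.1, hA.2.1⟩
    have h4 : ((SS q m a).card : ℝ) ≤ m := by exact_mod_cast card_SS_le
    exact mul_le_mul h4 h3 (sum_nonneg fun _ _ => sq_nonneg _) (Nat.cast_nonneg _)
  have h3 : |P - X / (Nat.totient q : ℝ)| ≤ Real.sqrt (m * G X (q * m)) :=
    Real.abs_le_sqrt h2
  -- the rest
  have h4 : psi X q a = P + ∑ n ∈ (Icc 1 ⌊X⌋₊).filter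
      (fun n => n ≡ a [MOD q] ∧ ¬ n.Coprime (q * m)), ArithmeticFunction.vonMangoldt n := by
    unfold psi
    rw [hP, ← filter_filter, ← filter_filter, sum_filter_add_sum_filter_not]
  have h5 : 0 ≤ ∑ n ∈ (Icc 1 ⌊X⌋₊).filter
      (fun n => n ≡ a [MOD q] ∧ ¬ n.Coprime (q * m)), ArithmeticFunction.vonMangoldt n :=
    sum_nonneg fun _ _ => ArithmeticFunction.vonMangoldt_nonneg
  have h6 : ∑ n ∈ (Icc 1 ⌊X⌋₊).filter
      (fun n => n ≡ a [MOD q] ∧ ¬ n.Coprime (q * m)), ArithmeticFunction.vonMangoldt n ≤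
      Nat.log 2 ⌊X⌋₊ * Real.log ((q * m : ℕ) : ℝ) := by
    refine le_trans ?_ (bad_le ⌊X⌋₊ (q * m) hQ)
    refine sum_le_sum_of_subset_of_nonneg ?_ fun _ _ _ => ArithmeticFunction.vonMangoldt_nonneg
    intro n hn
    rw [mem_filter] at hn ⊢
    exact ⟨hn.1, hn.2.2⟩
  rw [h4]
  rw [abs_le] at h3 ⊢
  constructor <;> linarith [h3.1, h3.2]

end Pool.Agent.E8helper81.VQ
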