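import Pool.Agent.E8helper81.VQ.Ana

/-!
# Project VQ: a power saving gives a zero free half plane for Dirichlet L-functions and zeta
-/

set_option autoImplicit false

namespace Pool.Agent.E8helper81.VQ

open Filter Topology Asymptotics Finset

/-- nontrivial characters -/
theorem zf_char {θ : ℝ} (hθ : 0 ≤ θ) (hθ1 : θ < 1) {q : ℕ} [NeZero q] (χ : DirichletCharacter ℂ q)
    (hχ : χ ≠ 1)
    (ha : (fun n : ℕ => ∑ k ∈ Icc 1 n, χ (k : ZMod q) * (ArithmeticFunction.vonMangoldt k : ℂ))
      =O[atTop] fun n : ℕ => (n : ℝ) ^ θ) :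
    ∀ s : ℂ, θ < s.re → DirichletCharacter.LFunction χ s ≠ 0 := by
  intro s hs
  obtain ⟨F, hF, hFe⟩ := continuation hθ hθ1
    (fun k : ℕ => χ (k : ZMod q) * (ArithmeticFunction.vonMangoldt k : ℂ)) ha
    (fun s hs => DirichletCharacter.LSeriesSummable_twist_vonMangoldt χ hs)
  have hd := DirichletCharacter.differentiable_LFunction hχ
  refine no_zero (θ := θ) (f := DirichletCharacter.LFunction χ) (g := fun z => -F z)
    (p := fun _ => 1) (s₁ := 2) hd.differentiableOn hF.neg (differentiableOn_const _) ?_ hθ1 ?_ ?_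
    hs one_ne_zero
  · intro z hz
    have h1 := DirichletCharacter.LSeries_twist_vonMangoldt_eq χ hz
    have h2 := hFe z hz
    have h3 : LSeries (fun k : ℕ => χ (k : ZMod q) * (ArithmeticFunction.vonMangoldt k : ℂ)) z =
        -deriv (LSeries fun n : ℕ => χ (n : ZMod q)) z / LSeries (fun n : ℕ => χ (n : ZMod q)) z :=
      h1
    have h4 : LSeries (fun n : ℕ => χ (n : ZMod q)) z ≠ 0 :=
      DirichletCharacter.LSeries_ne_zero_of_one_lt_re χ hz
    rw [← h2, h3, DirichletCharacter.deriv_LFunction_eq_deriv_LSeries χ hz,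
      DirichletCharacter.LFunction_eq_LSeries χ hz]
    field_simp
  · show θ < (2 : ℂ).re
    simp
    linarith
  · have h2 : (1 : ℝ) < (2 : ℂ).re := by simp
    rw [DirichletCharacter.LFunction_eq_LSeries χ h2]
    exact DirichletCharacter.LSeries_ne_zero_of_one_lt_re χ h2

/-- the Riemann zeta function -/
theorem zf_zeta {θ : ℝ} (hθ : 0 ≤ θ) (hθ1 : θ < 1)
    (ha : (fun n : ℕ => ∑ k ∈ Icc 1 n, ((ArithmeticFunction.vonMangoldt k : ℂ) - 1))
      =O[atTop] fun n : ℕ => (n : ℝ) ^ θ) :
    ∀ s : ℂ, θ < s.re → s ≠ 1 → riemannZeta s ≠ 0 := by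
  intro s hs hs1
  have hsum : ∀ z : ℂ, 1 < z.re →
      LSeriesSummable (fun k : ℕ => (ArithmeticFunction.vonMangoldt k : ℂ) - 1) z := by
    intro z hz
    exact (ArithmeticFunction.LSeriesSummable_vonMangoldt hz).sub (LSeriesSummable_one_iff.2 hz)
  obtain ⟨F, hF, hFe⟩ := continuation hθ hθ1
    (fun k : ℕ => (ArithmeticFunction.vonMangoldt k : ℂ) - 1) ha hsum
  have hZ := DirichletCharacter.differentiable_LFunctionTrivChar₁ 1
  set Z := DirichletCharacter.LFunctionTrivChar₁ 1 with hZdef
  have hZv : ∀ z : ℂ, z ≠ 1 → Z z = (z - 1) * riemannZeta z := by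
    intro z hz
    rw [hZdef]
    simp only [DirichletCharacter.LFunctionTrivChar₁]
    rw [Function.update_of_ne hz]
    simp [DirichletCharacter.LFunctionTrivChar]
  have hZd : ∀ z : ℂ, z ≠ 1 → deriv Z z = (z - 1) * deriv riemannZeta z + riemannZeta z := by
    intro z hz
    have h1 := DirichletCharacter.deriv_LFunctionTrivChar₁_apply_of_ne_one 1 hz
    have h2 : DirichletCharacter.LFunctionTrivChar 1 = riemannZeta := by
      simp [DirichletCharacter.LFunctionTrivChar]
    rw [h2] at h1
    exact h1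
  have hmain : Z s ≠ 0 := by
    refine no_zero (θ := θ) (f := Z) (g := fun z => 1 - (z - 1) * F z - Z z)
      (p := fun z => z - 1) (s₁ := 2) hZ.differentiableOn ?_ ?_ ?_ hθ1 ?_ ?_
      hs (sub_ne_zero.2 hs1)
    · exact ((differentiableOn_const _).sub ((differentiableOn_id.sub
        (differentiableOn_const _)).mul hF)).sub hZ.differentiableOn
    · exact differentiableOn_id.sub (differentiableOn_const _)
    · intro z hz
      have hz1 : z ≠ 1 := by
        rintro rfl
        simp at hz
      have h1 : LSeries (fun k : ℕ => (ArithmeticFunction.vonMangoldt k : ℂ) - 1) z =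
          -deriv riemannZeta z / riemannZeta z - riemannZeta z := by
        have h2 := LSeries_sub (ArithmeticFunction.LSeriesSummable_vonMangoldt hz)
          (LSeriesSummable_one_iff.2 hz)
        rw [ArithmeticFunction.LSeries_vonMangoldt_eq_deriv_riemannZeta_div hz,
          LSeries_one_eq_riemannZeta hz] at h2
        exact h2
      have h3 : riemannZeta z ≠ 0 := riemannZeta_ne_zero_of_one_lt_re hz
      rw [hZd z hz1, ← hFe z hz, h1, hZv z hz1]
      field_simp
      ring
    · show θ < (2 : ℂ).re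
      simp
      linarith
    · have h2 : (1 : ℝ) < (2 : ℂ).re := by simp
      have h3 : (2 : ℂ) ≠ 1 := by norm_num
      rw [hZv 2 h3]
      exact mul_ne_zero (by norm_num) (riemannZeta_ne_zero_of_one_lt_re h2)
  rw [hZv s hs1] at hmain
  exact right_ne_zero_of_mul hmain

/-- all the characters, from zeta -/
theorem zf_triv {θ : ℝ} (hθ : 0 ≤ θ) (h : ∀ s : ℂ, θ < s.re → s ≠ 1 → riemannZeta s ≠ 0)
    (q : ℕ) [NeZero q] : ∀ s : ℂ, θ < s.re → s ≠ 1 →
    DirichletCharacter.LFunction (1 : DirichletCharacter ℂ q) s ≠ 0 := by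
  intro s hs hs1
  have h1 := DirichletCharacter.LFunctionTrivChar_eq_mul_riemannZeta (N := q) hs1
  have h2 : DirichletCharacter.LFunction (1 : DirichletCharacter ℂ q) s =
      DirichletCharacter.LFunctionTrivChar q s := rfl
  rw [h2, h1]
  refine mul_ne_zero (prod_ne_zero_iff.2 fun p hp => ?_) (h s hs hs1)
  have hp2 : 1 < p := (Nat.prime_of_mem_primeFactors hp).one_lt
  intro h3
  have h4 : ((p : ℂ) ^ (-s)) = 1 := (sub_eq_zero.1 h3).symm
  have h5 := congrArg norm h4
  rw [norm_one, Complex.norm_natCast_cpow_of_pos (by omega), Complex.neg_re] at h5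
  have h6 : ((p : ℝ)) ^ (-s.re) < 1 := by
    apply Real.rpow_lt_one_of_one_lt_of_neg
    · exact_mod_cast hp2
    · linarith
  linarith

end Pool.Agent.E8helper81.VQ
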