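import Pool.Agent.E8helper81.VQ.Ar
import Pool.Agent.E8helper81.VQ.Zf

/-!
# Project VQ: the consequences of the upper bound for the variance
-/

set_option autoImplicit false

namespace Pool.Agent.E8helper81.VQ

open Finset Filter Topology Asymptotics

/-- the upper bound `X ^ (1 + ε)` for the variance, for the moduli `X ^ κ < Q ≤ 2 X ^ κ` -/
def UB (κ : ℝ) : Prop := ∀ ε : ℝ, 0 < ε → ∃ X₀ : ℝ, ∀ X : ℝ, X₀ ≤ X → ∀ Q : ℕ,
  X ^ κ < (Q : ℝ) → (Q : ℝ) ≤ 2 * X ^ κ → G X Q ≤ X ^ (1 + ε)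

/-- the prime number theorem with a power saving for all the progressions with `q ≤ X ^ κ` -/
def PS (κ : ℝ) : Prop := ∀ ε : ℝ, 0 < ε → ∃ X₀ : ℝ, ∀ X : ℝ, X₀ ≤ X → ∀ q a : ℕ, 1 ≤ q →
  (q : ℝ) ≤ X ^ κ → a.Coprime q →
  |psi X q a - X / (Nat.totient q : ℝ)| ≤ X ^ ((1 + κ) / 2 + ε) / Real.sqrt q

lemma log_term {X : ℝ} (hX : 1 ≤ X) {Q : ℕ} (hQ0 : 0 < Q) (hQ : (Q : ℝ) ≤ 2 * X) :
    Nat.log 2 ⌊X⌋₊ * Real.log (Q : ℝ) ≤ 64 * X ^ (1 / 2 : ℝ) := by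
  have hX0 : 0 < X := by linarith
  have h1 : (Nat.log 2 ⌊X⌋₊ : ℝ) ≤ Real.log X / Real.log 2 := by
    have h2 : ⌊X⌋₊ ≠ 0 := by
      have := Nat.floor_pos.2 hX
      omega
    have h3 : 2 ^ Nat.log 2 ⌊X⌋₊ ≤ ⌊X⌋₊ := Nat.pow_log_le_self 2 h2
    have h4 : (2 : ℝ) ^ Nat.log 2 ⌊X⌋₊ ≤ X := by
      have h5 : ((2 ^ Nat.log 2 ⌊X⌋₊ : ℕ) : ℝ) ≤ (⌊X⌋₊ : ℝ) := by exact_mod_cast h3
      push_cast at h5
      exact h5.trans (Nat.floor_le hX0.le)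
    rw [le_div_iff₀ (Real.log_pos (by norm_num)), ← Real.log_pow]
    exact Real.log_le_log (by positivity) h4
  have hl2 : (1 / 2 : ℝ) ≤ Real.log 2 := by have := Real.log_two_gt_d9; linarith
  have h6 : Real.log X ≤ X ^ (1 / 4 : ℝ) / (1 / 4) := Real.log_le_rpow_div hX0.le (by norm_num)
  have h7 : Real.log (Q : ℝ) ≤ (2 * X) ^ (1 / 4 : ℝ) / (1 / 4) :=
    (Real.log_le_log (by exact_mod_cast hQ0) hQ).trans
      (Real.log_le_rpow_div (by linarith) (by norm_num))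
  have h8 : (2 * X) ^ (1 / 4 : ℝ) ≤ 2 * X ^ (1 / 4 : ℝ) := by
    rw [Real.mul_rpow (by norm_num) hX0.le]
    have : (2 : ℝ) ^ (1 / 4 : ℝ) ≤ 2 ^ (1 : ℝ) :=
      Real.rpow_le_rpow_of_exponent_le (by norm_num) (by norm_num)
    rw [Real.rpow_one] at this
    exact mul_le_mul_of_nonneg_right this (by positivity)
  have h9 : (Nat.log 2 ⌊X⌋₊ : ℝ) ≤ 8 * X ^ (1 / 4 : ℝ) := by
    refine h1.trans ?_
    rw [div_le_iff₀ (by linarith)]
    have : 0 ≤ X ^ (1 / 4 : ℝ) := by positivity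
    nlinarith
  have h10 : Real.log (Q : ℝ) ≤ 8 * X ^ (1 / 4 : ℝ) := by linarith
  have h11 : X ^ (1 / 2 : ℝ) = X ^ (1 / 4 : ℝ) * X ^ (1 / 4 : ℝ) := by
    rw [← Real.rpow_add hX0]
    norm_num
  have h12 : 0 ≤ Real.log (Q : ℝ) := Real.log_natCast_nonneg Q
  rw [h11]
  have h13 : (0 : ℝ) ≤ X ^ (1 / 4 : ℝ) := by positivity
  calc (Nat.log 2 ⌊X⌋₊ : ℝ) * Real.log (Q : ℝ) ≤ (8 * X ^ (1 / 4 : ℝ)) * (8 * X ^ (1 / 4 : ℝ)) :=
        mul_le_mul h9 h10 h12 (by positivity)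
    _ = 64 * (X ^ (1 / 4 : ℝ) * X ^ (1 / 4 : ℝ)) := by ring

theorem ps_of_ub {κ : ℝ} (h0 : 0 < κ) (h1 : κ < 1) (h : UB κ) : PS κ := by
  intro ε hε
  obtain ⟨X₁, hX₁⟩ := h ε hε
  obtain ⟨X₂, hX₂⟩ : ∃ X₂ : ℝ, ∀ X : ℝ, X₂ ≤ X → 66 ≤ X ^ (ε / 2) :=
    eventually_atTop.1 ((tendsto_rpow_atTop (by linarith : 0 < ε / 2)).eventually_ge_atTop 66)
  refine ⟨max (max X₁ X₂) 1, fun X hX q a hq hqX ha => ?_⟩
  have hX1 : X₁ ≤ X := (le_max_left _ _).trans ((le_max_left _ _).trans hX)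
  have hX2 : X₂ ≤ X := (le_max_right _ _).trans ((le_max_left _ _).trans hX)
  have hX3 : 1 ≤ X := (le_max_right _ _).trans hX
  have hX0 : 0 < X := by linarith
  have hq0 : (0 : ℝ) < q := by exact_mod_cast hq
  have hXκ : 0 < X ^ κ := by positivity
  obtain ⟨m, hm⟩ : ∃ m, m = ⌊X ^ κ / q⌋₊ + 1 := ⟨_, rfl⟩
  have hm0 : 0 < m := by omega
  have hm1 : X ^ κ / q < m := by
    rw [hm]
    push_cast
    exact Nat.lt_floor_add_one _
  have hm2 : (m : ℝ) ≤ 2 * (X ^ κ / q) := by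
    rw [hm]
    push_cast
    have h2 : (⌊X ^ κ / q⌋₊ : ℝ) ≤ X ^ κ / q := Nat.floor_le (by positivity)
    have h3 : 1 ≤ X ^ κ / q := by
      rw [le_div_iff₀ hq0, one_mul]
      exact hqX
    linarith
  have hQ1 : X ^ κ < ((q * m : ℕ) : ℝ) := by
    push_cast
    rw [div_lt_iff₀ hq0] at hm1
    linarith
  have hQ2 : ((q * m : ℕ) : ℝ) ≤ 2 * X ^ κ := by
    push_cast
    have h2 := mul_le_mul_of_nonneg_left hm2 hq0.le
    have h3 : (q : ℝ) * (2 * (X ^ κ / q)) = 2 * X ^ κ := by field_simp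
    linarith
  have hG := hX₁ X hX1 (q * m) hQ1 hQ2
  have hmain := main_ineq (X := X) hq hm0 ha
  have hsq : 0 < Real.sqrt q := Real.sqrt_pos.2 hq0
  -- the first term
  have h4 : Real.sqrt (m * G X (q * m)) ≤ 2 * X ^ ((1 + κ) / 2 + ε / 2) / Real.sqrt q := by
    rw [le_div_iff₀ hsq, ← Real.sqrt_mul' _ hq0.le]
    apply Real.sqrt_le_iff.2
    refine ⟨by positivity, ?_⟩
    have hG0 : 0 ≤ G X (q * m) := by
      unfold G
      exact sum_nonneg fun _ _ => sq_nonneg _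
    have h5 : (m : ℝ) * G X (q * m) * q ≤ (2 * (X ^ κ / q)) * X ^ (1 + ε) * q := by
      apply mul_le_mul_of_nonneg_right _ hq0.le
      exact mul_le_mul hm2 hG hG0 (by positivity)
    refine h5.trans ?_
    have h6 : (2 * (X ^ κ / q)) * X ^ (1 + ε) * q = 2 * (X ^ κ * X ^ (1 + ε)) := by
      field_simp
    rw [h6, ← Real.rpow_add hX0, mul_pow, ← Real.rpow_natCast (X ^ _) 2, ← Real.rpow_mul hX0.le]
    have h7 : κ + (1 + ε) = ((1 + κ) / 2 + ε / 2) * ((2 : ℕ) : ℝ) := by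
      push_cast
      ring
    rw [h7]
    have h8 : (0 : ℝ) ≤ X ^ (((1 + κ) / 2 + ε / 2) * ((2 : ℕ) : ℝ)) := by positivity
    nlinarith
  -- the second term
  have hXκ1 : X ^ κ ≤ X := by
    calc X ^ κ ≤ X ^ (1 : ℝ) := Real.rpow_le_rpow_of_exponent_le hX3 h1.le
      _ = X := Real.rpow_one X
  have h9 := log_term hX3 (Nat.mul_pos hq hm0) (hQ2.trans (by linarith))
  have h10 : 64 * X ^ (1 / 2 : ℝ) ≤ 64 * X ^ ((1 + κ) / 2 + ε / 2) / Real.sqrt q := by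
    rw [le_div_iff₀ hsq, mul_assoc]
    apply mul_le_mul_of_nonneg_left _ (by norm_num)
    have h11 : Real.sqrt q ≤ X ^ (κ / 2) := by
      apply Real.sqrt_le_iff.2
      refine ⟨by positivity, ?_⟩
      rw [← Real.rpow_natCast (X ^ (κ / 2)) 2, ← Real.rpow_mul hX0.le]
      have h12 : κ / 2 * ((2 : ℕ) : ℝ) = κ := by push_cast; ring
      rw [h12]
      exact hqX
    calc X ^ (1 / 2 : ℝ) * Real.sqrt q ≤ X ^ (1 / 2 : ℝ) * X ^ (κ / 2) :=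
          mul_le_mul_of_nonneg_left h11 (by positivity)
      _ = X ^ (1 / 2 + κ / 2) := by rw [← Real.rpow_add hX0]
      _ ≤ X ^ ((1 + κ) / 2 + ε / 2) :=
          Real.rpow_le_rpow_of_exponent_le hX3 (by linarith)
  have h13 : |psi X q a - X / (Nat.totient q : ℝ)| ≤
      66 * X ^ ((1 + κ) / 2 + ε / 2) / Real.sqrt q := by
    refine hmain.trans ?_
    have h14 : 66 * X ^ ((1 + κ) / 2 + ε / 2) / Real.sqrt q =
        2 * X ^ ((1 + κ) / 2 + ε / 2) / Real.sqrt q +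
        64 * X ^ ((1 + κ) / 2 + ε / 2) / Real.sqrt q := by ring
    rw [h14]
    linarith
  refine h13.trans ?_
  apply div_le_div_of_nonneg_right _ hsq.le
  have h15 : X ^ ((1 + κ) / 2 + ε) = X ^ (ε / 2) * X ^ ((1 + κ) / 2 + ε / 2) := by
    rw [← Real.rpow_add hX0]
    congr 1
    ring
  rw [h15]
  exact mul_le_mul_of_nonneg_right (hX₂ X hX2) (by positivity)

end Pool.Agent.E8helper81.VQ
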