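import Pool.Agent.E8helper81.VQ.As

/-!
# Project VQ: zero free half planes and the conjecture itself
-/

set_option autoImplicit false

namespace Pool.Agent.E8helper81.VQ

open Finset Filter Topology Asymptotics

lemma sum_char_coprime {q : ℕ} [NeZero q] (χ : DirichletCharacter ℂ q) (hχ : χ ≠ 1) :
    ∑ a ∈ (range q).filter (fun a => a.Coprime q), χ (a : ZMod q) = 0 := by
  have h1 := MulChar.sum_eq_zero_of_ne_one hχ
  have h2 : ∑ a ∈ (range q).filter (fun a => a.Coprime q), χ (a : ZMod q) =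
      ∑ a ∈ range q, χ (a : ZMod q) := by
    rw [sum_filter]
    refine sum_congr rfl fun a _ => ?_
    split_ifs with h
    · rfl
    · symm
      apply MulChar.map_nonunit
      rwa [ZMod.isUnit_iff_coprime]
  rw [h2, ← h1]
  refine sum_nbij' (fun a => (a : ZMod q)) ZMod.val ?_ ?_ ?_ ?_ ?_
  · intro a _
    exact mem_univ _
  · intro x _
    rw [mem_range]
    exact ZMod.val_lt x
  · intro a ha
    rw [ZMod.val_natCast, Nat.mod_eq_of_lt (mem_range.1 ha)]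
  · intro x _
    exact ZMod.natCast_zmod_val x
  · intro a _
    rfl

lemma sum_char {q : ℕ} [NeZero q] (χ : DirichletCharacter ℂ q) (n : ℕ) :
    ∑ k ∈ Icc 1 n, χ (k : ZMod q) * (ArithmeticFunction.vonMangoldt k : ℂ) =
      ∑ a ∈ (range q).filter (fun a => a.Coprime q), χ (a : ZMod q) * ((psi n q a : ℝ) : ℂ) := by
  classical
  have hq : 0 < q := Nat.pos_of_neZero q
  have h1 : ∑ k ∈ Icc 1 n, χ (k : ZMod q) * (ArithmeticFunction.vonMangoldt k : ℂ) =
      ∑ k ∈ (Icc 1 n).filter (fun k => k.Coprime q),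
        χ (k : ZMod q) * (ArithmeticFunction.vonMangoldt k : ℂ) := by
    rw [sum_filter]
    refine sum_congr rfl fun k _ => ?_
    split_ifs with h
    · rfl
    · rw [MulChar.map_nonunit, zero_mul]
      rwa [ZMod.isUnit_iff_coprime]
  have h2 := sum_fiberwise_of_maps_to (s := (Icc 1 n).filter (fun k => k.Coprime q))
    (t := (range q).filter (fun a => a.Coprime q)) (g := fun k => k % q) (by
      intro k hk
      rw [mem_filter] at hk ⊢
      refine ⟨mem_range.2 (Nat.mod_lt _ hq), ?_⟩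
      unfold Nat.Coprime at *
      rw [← Nat.gcd_rec, Nat.gcd_comm]
      exact hk.2)
    (fun k => χ (k : ZMod q) * (ArithmeticFunction.vonMangoldt k : ℂ))
  rw [h1, ← h2]
  refine sum_congr rfl fun a ha => ?_
  rw [mem_filter, mem_range] at ha
  unfold psi
  rw [Nat.floor_natCast, Complex.ofReal_sum, mul_sum]
  have h3 : ((Icc 1 n).filter (fun k => k.Coprime q)).filter (fun k => k % q = a) =
      (Icc 1 n).filter (fun k => k ≡ a [MOD q]) := by
    ext k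
    rw [mem_filter, mem_filter, mem_filter]
    have h4 : k ≡ a [MOD q] ↔ k % q = a := by
      unfold Nat.ModEq
      rw [Nat.mod_eq_of_lt ha.1]
    rw [h4]
    constructor
    · rintro ⟨⟨h5, _⟩, h6⟩
      exact ⟨h5, h6⟩
    · rintro ⟨h5, h6⟩
      refine ⟨⟨h5, ?_⟩, h6⟩
      have h7 := ha.2
      rw [← h6] at h7
      unfold Nat.Coprime at *
      rw [← Nat.gcd_rec, Nat.gcd_comm] at h7
      exact h7
  rw [h3]
  refine sum_congr rfl fun k hk => ?_
  have h4 : k ≡ a [MOD q] := (mem_filter.1 hk).2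
  rw [(ZMod.natCast_eq_natCast_iff k a q).2 h4]

/-- the bound for the character sums -/
lemma char_O {κ : ℝ} (h0 : 0 < κ) (h : PS κ) {θ : ℝ} (hθ : (1 + κ) / 2 < θ) {q : ℕ} [NeZero q]
    (χ : DirichletCharacter ℂ q) (hχ : χ ≠ 1) :
    (fun n : ℕ => ∑ k ∈ Icc 1 n, χ (k : ZMod q) * (ArithmeticFunction.vonMangoldt k : ℂ))
      =O[atTop] fun n : ℕ => (n : ℝ) ^ θ := by
  have hq : 0 < q := Nat.pos_of_neZero q
  obtain ⟨X₀, hX₀⟩ := h (θ - (1 + κ) / 2) (by linarith)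
  refine IsBigO.of_bound q ?_
  have h1 : ∀ᶠ n : ℕ in atTop, (q : ℝ) ≤ (n : ℝ) ^ κ :=
    ((tendsto_rpow_atTop h0).comp tendsto_natCast_atTop_atTop).eventually_ge_atTop _
  have h2 : ∀ᶠ n : ℕ in atTop, X₀ ≤ (n : ℝ) := tendsto_natCast_atTop_atTop.eventually_ge_atTop _
  filter_upwards [h1, h2] with n hn1 hn2
  have h3 : ∑ k ∈ Icc 1 n, χ (k : ZMod q) * (ArithmeticFunction.vonMangoldt k : ℂ) =
      ∑ a ∈ (range q).filter (fun a => a.Coprime q),
        χ (a : ZMod q) * ((psi n q a - n / (Nat.totient q : ℝ) : ℝ) : ℂ) := by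
    have h4 := sum_char_coprime χ hχ
    have h5 : ∑ a ∈ (range q).filter (fun a => a.Coprime q),
        χ (a : ZMod q) * ((psi n q a - n / (Nat.totient q : ℝ) : ℝ) : ℂ) =
        ∑ a ∈ (range q).filter (fun a => a.Coprime q), χ (a : ZMod q) * ((psi n q a : ℝ) : ℂ) -
        (∑ a ∈ (range q).filter (fun a => a.Coprime q), χ (a : ZMod q)) *
          ((n / (Nat.totient q : ℝ) : ℝ) : ℂ) := by
      rw [sum_mul, ← sum_sub_distrib]
      refine sum_congr rfl fun a _ => ?_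
      rw [Complex.ofReal_sub]
      ring
    rw [h5, h4, zero_mul, sub_zero]
    exact sum_char χ n
  rw [h3]
  refine (norm_sum_le _ _).trans ?_
  have h4 : ∀ a ∈ (range q).filter (fun a => a.Coprime q),
      ‖χ (a : ZMod q) * ((psi n q a - n / (Nat.totient q : ℝ) : ℝ) : ℂ)‖ ≤ (n : ℝ) ^ θ := by
    intro a ha
    rw [mem_filter] at ha
    rw [norm_mul, Complex.norm_real, Real.norm_eq_abs]
    have h5 : ‖χ (a : ZMod q)‖ ≤ 1 := DirichletCharacter.norm_le_one χ _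
    have h6 := hX₀ n hn2 q a hq hn1 ha.2
    have h7 : (1 + κ) / 2 + (θ - (1 + κ) / 2) = θ := by ring
    rw [h7] at h6
    have h8 : (n : ℝ) ^ θ / Real.sqrt q ≤ (n : ℝ) ^ θ := by
      apply div_le_self (by positivity)
      rw [Real.one_le_sqrt]
      exact_mod_cast hq
    calc ‖χ (a : ZMod q)‖ * |psi n q a - n / (Nat.totient q : ℝ)| ≤
          1 * |psi n q a - n / (Nat.totient q : ℝ)| :=
          mul_le_mul_of_nonneg_right h5 (abs_nonneg _)
      _ ≤ (n : ℝ) ^ θ := by rw [one_mul]; exact h6.trans h8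
  refine (sum_le_sum h4).trans ?_
  rw [sum_const, nsmul_eq_mul, Real.norm_of_nonneg (by positivity)]
  apply mul_le_mul_of_nonneg_right _ (by positivity)
  have h5 := card_filter_le (range q) (fun a => a.Coprime q)
  rw [card_range] at h5
  exact_mod_cast h5

lemma zeta_O {κ : ℝ} (h : PS κ) (h0 : 0 < κ) {θ : ℝ} (hθ : (1 + κ) / 2 < θ) :
    (fun n : ℕ => ∑ k ∈ Icc 1 n, ((ArithmeticFunction.vonMangoldt k : ℂ) - 1))
      =O[atTop] fun n : ℕ => (n : ℝ) ^ θ := by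
  obtain ⟨X₀, hX₀⟩ := h (θ - (1 + κ) / 2) (by linarith)
  refine IsBigO.of_bound 1 ?_
  have h2 : ∀ᶠ n : ℕ in atTop, X₀ ≤ (n : ℝ) := tendsto_natCast_atTop_atTop.eventually_ge_atTop _
  filter_upwards [h2, eventually_ge_atTop 1] with n hn2 hn1
  have hn1' : (1 : ℝ) ≤ n := by exact_mod_cast hn1
  have h3 := hX₀ n hn2 1 0 le_rfl (by
    rw [Nat.cast_one]
    exact Real.one_le_rpow hn1' h0.le) (by decide)
  have h7 : (1 + κ) / 2 + (θ - (1 + κ) / 2) = θ := by ring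
  rw [h7] at h3
  unfold psi at h3
  rw [Nat.floor_natCast] at h3
  have h4 : (Icc 1 n).filter (fun k => k ≡ 0 [MOD 1]) = Icc 1 n :=
    filter_true_of_mem fun k _ => Nat.modEq_one
  rw [h4] at h3
  have h5 : ∑ k ∈ Icc 1 n, ((ArithmeticFunction.vonMangoldt k : ℂ) - 1) =
      ((∑ k ∈ Icc 1 n, ArithmeticFunction.vonMangoldt k - n : ℝ) : ℂ) := by
    rw [sum_sub_distrib, Complex.ofReal_sub, Complex.ofReal_sum]
    simp
  rw [h5, Complex.norm_real, Real.norm_eq_abs, one_mul, Real.norm_of_nonneg (by positivity)]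
  simpa using h3

/-- **the zero free half plane** -/
theorem zf_of_ps {κ : ℝ} (h0 : 0 < κ) (h1 : κ < 1) (h : PS κ) :
    ∀ (q : ℕ) [NeZero q] (χ : DirichletCharacter ℂ q) (s : ℂ), (1 + κ) / 2 < s.re → s ≠ 1 →
      DirichletCharacter.LFunction χ s ≠ 0 := by
  intro q _ χ s hs hs1
  obtain ⟨θ, hθ1, hθ2, hθ3⟩ : ∃ θ : ℝ, (1 + κ) / 2 < θ ∧ θ < s.re ∧ θ < 1 := by
    have h2 : (1 + κ) / 2 < min s.re 1 := lt_min hs (by linarith)
    obtain ⟨θ, h3, h4⟩ := exists_between h2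
    exact ⟨θ, h3, h4.trans_le (min_le_left _ _), h4.trans_le (min_le_right _ _)⟩
  have hθ0 : 0 ≤ θ := by linarith
  rcases eq_or_ne χ 1 with hχ | hχ
  · rw [hχ]
    exact zf_triv hθ0 (zf_zeta hθ0 hθ3 (zeta_O h h0 hθ1)) q s hθ2 hs1
  · exact zf_char hθ0 hθ3 χ hχ (char_O h0 h hθ1 χ hχ) s hθ2

/-- the upper half of the conjecture implies the upper bound -/
theorem ub_of_conj
    (h : ∀ ε : ℝ, 0 < ε → ∃ X₀ : ℝ, ∀ X : ℝ, X₀ ≤ X → ∀ Q : ℕ,
      X ^ ((1 : ℝ) / 2 + ε) < (Q : ℝ) → (Q : ℝ) < X ^ (1 - ε) →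
      |G X Q - X * (Real.log (Q : ℝ) - (Real.eulerMascheroniConstant + Real.log (2 * Real.pi)
            + ∑ p ∈ Q.primeFactors, Real.log (p : ℝ) / ((p : ℝ) - 1)))| ≤ X)
    {κ : ℝ} (h0 : 1 / 2 < κ) (h1 : κ < 1) : UB κ := by
  intro ε hε
  obtain ⟨δ, hδ0, hδ1, hδ2⟩ : ∃ δ : ℝ, 0 < δ ∧ 1 / 2 + δ < κ ∧ κ + δ < 1 - δ := by
    refine ⟨min ((κ - 1 / 2) / 2) ((1 - κ) / 4), ?_, ?_, ?_⟩
    · exact lt_min (by linarith) (by linarith)
    · have := min_le_left ((κ - 1 / 2) / 2) ((1 - κ) / 4)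
      linarith
    · have := min_le_right ((κ - 1 / 2) / 2) ((1 - κ) / 4)
      linarith
  obtain ⟨X₁, hX₁⟩ := h δ hδ0
  obtain ⟨X₂, hX₂⟩ : ∃ X₂ : ℝ, ∀ X : ℝ, X₂ ≤ X → 3 ≤ X ^ δ :=
    eventually_atTop.1 ((tendsto_rpow_atTop hδ0).eventually_ge_atTop 3)
  obtain ⟨X₃, hX₃⟩ : ∃ X₃ : ℝ, ∀ X : ℝ, X₃ ≤ X → 2 / ε + 1 ≤ X ^ (ε / 2) :=
    eventually_atTop.1 ((tendsto_rpow_atTop (by linarith : 0 < ε / 2)).eventually_ge_atTop _)
  refine ⟨max (max X₁ X₂) (max X₃ 1), fun X hX Q hQ1 hQ2 => ?_⟩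
  have hXa : X₁ ≤ X := (le_max_left _ _).trans ((le_max_left _ _).trans hX)
  have hXb : X₂ ≤ X := (le_max_right _ _).trans ((le_max_left _ _).trans hX)
  have hXc : X₃ ≤ X := (le_max_left _ _).trans ((le_max_right _ _).trans hX)
  have hXd : 1 ≤ X := (le_max_right _ _).trans ((le_max_right _ _).trans hX)
  have hX0 : 0 < X := by linarith
  have hlow : X ^ ((1 : ℝ) / 2 + δ) < (Q : ℝ) :=
    lt_of_le_of_lt (Real.rpow_le_rpow_of_exponent_le hXd hδ1.le) hQ1
  have hup : (Q : ℝ) < X ^ (1 - δ) := by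
    have h2 : 2 * X ^ κ < X ^ δ * X ^ κ := by
      have h3 : 0 < X ^ κ := by positivity
      have h4 := hX₂ X hXb
      nlinarith
    rw [← Real.rpow_add hX0] at h2
    calc (Q : ℝ) ≤ 2 * X ^ κ := hQ2
      _ < X ^ (δ + κ) := h2
      _ ≤ X ^ (1 - δ) := Real.rpow_le_rpow_of_exponent_le hXd (by linarith)
  have h2 := (abs_le.1 (hX₁ X hXa Q hlow hup)).2
  have hQX : (Q : ℝ) ≤ X := by
    refine hup.le.trans ?_
    calc X ^ (1 - δ) ≤ X ^ (1 : ℝ) := Real.rpow_le_rpow_of_exponent_le hXd (by linarith)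
      _ = X := Real.rpow_one X
  have hQ0 : 0 < (Q : ℝ) := lt_of_le_of_lt (by positivity) hQ1
  have h3 : 0 ≤ Real.eulerMascheroniConstant + Real.log (2 * Real.pi)
            + ∑ p ∈ Q.primeFactors, Real.log (p : ℝ) / ((p : ℝ) - 1) := by
    have h4 : 0 < Real.eulerMascheroniConstant := by
      have := Real.one_half_lt_eulerMascheroniConstant
      linarith
    have h5 : 0 ≤ Real.log (2 * Real.pi) := by
      apply Real.log_nonneg
      have := Real.pi_gt_three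
      linarith
    have h6 : 0 ≤ ∑ p ∈ Q.primeFactors, Real.log (p : ℝ) / ((p : ℝ) - 1) := by
      refine sum_nonneg fun p hp => ?_
      have hp1 : (1 : ℝ) ≤ p := by exact_mod_cast (Nat.prime_of_mem_primeFactors hp).one_lt.le
      exact div_nonneg (Real.log_nonneg hp1) (by linarith)
    linarith
  have h4 : G X Q ≤ X * (Real.log X + 1) := by
    have h5 : Real.log (Q : ℝ) ≤ Real.log X := Real.log_le_log hQ0 hQX
    nlinarith
  have h5 : Real.log X ≤ X ^ (ε / 2) / (ε / 2) := Real.log_le_rpow_div hX0.le (by linarith)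
  have h6 : Real.log X + 1 ≤ X ^ ε := by
    have h7 : X ^ ε = X ^ (ε / 2) * X ^ (ε / 2) := by
      rw [← Real.rpow_add hX0]
      congr 1
      ring
    have h8 := hX₃ X hXc
    have h9 : 1 ≤ X ^ (ε / 2) := Real.one_le_rpow hXd (by linarith)
    have h10 : X ^ (ε / 2) / (ε / 2) = 2 / ε * X ^ (ε / 2) := by
      field_simp
    rw [h10] at h5
    rw [h7]
    nlinarith
  calc G X Q ≤ X * (Real.log X + 1) := h4
    _ ≤ X * X ^ ε := mul_le_mul_of_nonneg_left h6 hX0.le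
    _ = X ^ (1 + ε) := by rw [Real.rpow_add hX0, Real.rpow_one]

end Pool.Agent.E8helper81.VQ
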