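import Pool.Agent.E8helper81.VQ.Fin

/-!
# Project VQ: the exponent of Linnik's theorem
-/

set_option autoImplicit false

namespace Pool.Agent.E8helper81.VQ

open Finset Filter Topology Asymptotics

/-- the prime number theorem with a power saving for all the progressions with `q ≤ X ^ (1 / 2)` -/
def PH : Prop := ∀ ε : ℝ, 0 < ε → ∃ X₀ : ℝ, ∀ X : ℝ, X₀ ≤ X → ∀ q a : ℕ, 1 ≤ q →
  (q : ℝ) ≤ X ^ (1 / 2 : ℝ) → a.Coprime q →
  |psi X q a - X / (Nat.totient q : ℝ)| ≤ X ^ (3 / 4 + ε) / Real.sqrt q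

lemma powers_le (N : ℕ) :
    ∑ n ∈ (Icc 1 N).filter (fun n => ¬ n.Prime), ArithmeticFunction.vonMangoldt n ≤
      Nat.sqrt N * Nat.log 2 N * Real.log N := by
  classical
  rcases Nat.eq_zero_or_pos N with hN | hN
  · subst hN
    simp
  rw [← sum_filter_ne_zero]
  have h1 : ∀ n ∈ ((Icc 1 N).filter (fun n => ¬ n.Prime)).filter
      (fun n => ArithmeticFunction.vonMangoldt n ≠ 0),
      ArithmeticFunction.vonMangoldt n ≤ Real.log N := by
    intro n hn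
    rw [mem_filter, mem_filter, mem_Icc] at hn
    refine ArithmeticFunction.vonMangoldt_le_log.trans ?_
    apply Real.log_le_log
    · exact_mod_cast hn.1.1.1
    · exact_mod_cast hn.1.1.2
  refine (sum_le_card_nsmul _ _ _ h1).trans ?_
  rw [nsmul_eq_mul]
  apply mul_le_mul_of_nonneg_right _ (Real.log_natCast_nonneg N)
  have h2 : ((Icc 1 N).filter (fun n => ¬ n.Prime)).filter
      (fun n => ArithmeticFunction.vonMangoldt n ≠ 0) ⊆
      (Icc 1 (Nat.sqrt N) ×ˢ Icc 1 (Nat.log 2 N)).image (fun x => x.1 ^ x.2) := by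
    intro n hn
    rw [mem_filter, mem_filter, mem_Icc] at hn
    obtain ⟨⟨⟨hn1, hn2⟩, hnp⟩, hne⟩ := hn
    obtain ⟨p, k, hp, hk, rfl⟩ := ArithmeticFunction.vonMangoldt_ne_zero_iff.1 hne
    have hp' : p.Prime := hp.nat_prime
    rw [mem_image]
    refine ⟨(p, k), ?_, rfl⟩
    rw [mem_product, mem_Icc, mem_Icc]
    have hk2 : 2 ≤ k := by
      by_contra hcon
      have : k = 1 := by omega
      subst this
      rw [pow_one] at hnp
      exact hnp hp'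
    refine ⟨⟨hp'.one_lt.le, ?_⟩, hk, ?_⟩
    · rw [Nat.le_sqrt']
      exact (Nat.pow_le_pow_right hp'.pos hk2).trans hn2
    · apply Nat.le_log_of_pow_le (by norm_num)
      exact (Nat.pow_le_pow_left hp'.two_le k).trans hn2
  have h3 := (card_le_card h2).trans card_image_le
  rw [card_product, Nat.card_Icc, Nat.card_Icc, Nat.add_sub_cancel, Nat.add_sub_cancel] at h3
  exact_mod_cast h3

/-- **Linnik's theorem with the exponent `2 + δ`** -/
theorem linnik (H : PH) (δ : ℝ) (hδ : 0 < δ) : ∃ q₀ : ℕ, ∀ q a : ℕ, q₀ ≤ q → a.Coprime q →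
    ∃ p : ℕ, p.Prime ∧ (p : ℝ) ≤ (q : ℝ) ^ (2 + δ) ∧ p ≡ a [MOD q] := by
  obtain ⟨η, hη⟩ : ∃ η : ℝ, η = δ / (8 * (2 + δ)) := ⟨_, rfl⟩
  have hη0 : 0 < η := by rw [hη]; positivity
  have hη1 : η * (2 + δ) = δ / 8 := by rw [hη]; field_simp
  obtain ⟨X₀, hX₀⟩ := H η hη0
  have ht1 : ∀ᶠ q : ℕ in atTop, X₀ ≤ (q : ℝ) := tendsto_natCast_atTop_atTop.eventually_ge_atTop _
  have ht2 : ∀ᶠ q : ℕ in atTop, 4 ≤ (q : ℝ) ^ (δ / 8) :=
    ((tendsto_rpow_atTop (by positivity)).comp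
      tendsto_natCast_atTop_atTop).eventually_ge_atTop _
  have ht3 : ∀ᶠ q : ℕ in atTop, 4 * (8 / η ^ 2) ≤ (q : ℝ) ^ (δ / 4) :=
    ((tendsto_rpow_atTop (by positivity)).comp
      tendsto_natCast_atTop_atTop).eventually_ge_atTop _
  obtain ⟨q₀, hq₀⟩ := eventually_atTop.1 (ht1.and (ht2.and ht3))
  refine ⟨max q₀ 1, fun q a hq ha => ?_⟩
  obtain ⟨h1, h2, h3⟩ := hq₀ q ((le_max_left _ _).trans hq)
  have hq1 : 1 ≤ q := (le_max_right _ _).trans hq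
  have hqr : (1 : ℝ) ≤ q := by exact_mod_cast hq1
  have hq0 : (0 : ℝ) < q := by linarith
  obtain ⟨X, hX⟩ : ∃ X : ℝ, X = (q : ℝ) ^ (2 + δ) := ⟨_, rfl⟩
  have hXq : (q : ℝ) ≤ X := by
    rw [hX]
    calc (q : ℝ) = (q : ℝ) ^ (1 : ℝ) := (Real.rpow_one _).symm
      _ ≤ (q : ℝ) ^ (2 + δ) := Real.rpow_le_rpow_of_exponent_le hqr (by linarith)
  have hX1 : 1 ≤ X := hqr.trans hXq
  have hX0 : 0 < X := by linarith
  have hpow : ∀ t : ℝ, X ^ t = (q : ℝ) ^ ((2 + δ) * t) := by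
    intro t
    rw [hX, ← Real.rpow_mul hq0.le]
  have hqX : (q : ℝ) ≤ X ^ (1 / 2 : ℝ) := by
    rw [hpow]
    calc (q : ℝ) = (q : ℝ) ^ (1 : ℝ) := (Real.rpow_one _).symm
      _ ≤ (q : ℝ) ^ ((2 + δ) * (1 / 2)) := Real.rpow_le_rpow_of_exponent_le hqr (by linarith)
  have hmain := hX₀ X (h1.trans hXq) q a hq1 hqX ha
  by_contra hcon
  push Not at hcon
  -- without primes the sum is small
  have h4 : psi X q a ≤ ∑ n ∈ (Icc 1 ⌊X⌋₊).filter (fun n => ¬ n.Prime),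
      ArithmeticFunction.vonMangoldt n := by
    unfold psi
    refine sum_le_sum_of_subset_of_nonneg ?_ fun _ _ _ => ArithmeticFunction.vonMangoldt_nonneg
    intro n hn
    rw [mem_filter, mem_Icc] at hn ⊢
    refine ⟨hn.1, fun hp => ?_⟩
    refine hcon n hp ?_ hn.2
    rw [← hX]
    exact (Nat.le_floor_iff hX0.le).1 hn.1.2
  have h5 := h4.trans (powers_le ⌊X⌋₊)
  have h6 : (Nat.sqrt ⌊X⌋₊ : ℝ) ≤ X ^ (1 / 2 : ℝ) := by
    rw [← Real.sqrt_eq_rpow]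
    refine Real.nat_sqrt_le_real_sqrt.trans ?_
    exact Real.sqrt_le_sqrt (Nat.floor_le hX0.le)
  have h7 : (Nat.log 2 ⌊X⌋₊ : ℝ) ≤ 2 * Real.log X := by
    have h8 : ⌊X⌋₊ ≠ 0 := by
      have := Nat.floor_pos.2 hX1
      omega
    have h9 : 2 ^ Nat.log 2 ⌊X⌋₊ ≤ ⌊X⌋₊ := Nat.pow_log_le_self 2 h8
    have h10 : (2 : ℝ) ^ Nat.log 2 ⌊X⌋₊ ≤ X := by
      have h11 : ((2 ^ Nat.log 2 ⌊X⌋₊ : ℕ) : ℝ) ≤ (⌊X⌋₊ : ℝ) := by exact_mod_cast h9
      push_cast at h11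
      exact h11.trans (Nat.floor_le hX0.le)
    have h12 : (Nat.log 2 ⌊X⌋₊ : ℝ) * Real.log 2 ≤ Real.log X := by
      rw [← Real.log_pow]
      exact Real.log_le_log (by positivity) h10
    have hl2 : (1 / 2 : ℝ) ≤ Real.log 2 := by have := Real.log_two_gt_d9; linarith
    have h13 : (0 : ℝ) ≤ Nat.log 2 ⌊X⌋₊ := Nat.cast_nonneg _
    nlinarith
  have h8 : Real.log (⌊X⌋₊ : ℝ) ≤ Real.log X := by
    apply Real.log_le_log
    · exact_mod_cast Nat.floor_pos.2 hX1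
    · exact Nat.floor_le hX0.le
  have h9 : Real.log X ≤ X ^ (η / 2) / (η / 2) := Real.log_le_rpow_div hX0.le (by linarith)
  have hlog0 : 0 ≤ Real.log X := Real.log_nonneg hX1
  have h10 : psi X q a ≤ 8 / η ^ 2 * X ^ (1 / 2 + η) := by
    refine h5.trans ?_
    have h11 : (Nat.sqrt ⌊X⌋₊ : ℝ) * Nat.log 2 ⌊X⌋₊ * Real.log (⌊X⌋₊ : ℝ) ≤
        X ^ (1 / 2 : ℝ) * (2 * Real.log X) * Real.log X := by
      apply mul_le_mul _ h8 (Real.log_natCast_nonneg _) (by positivity)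
      exact mul_le_mul h6 h7 (Nat.cast_nonneg _) (by positivity)
    refine h11.trans ?_
    have h12 : Real.log X * Real.log X ≤ (X ^ (η / 2) / (η / 2)) * (X ^ (η / 2) / (η / 2)) :=
      mul_le_mul h9 h9 hlog0 (by positivity)
    have h13 : (X ^ (η / 2) / (η / 2)) * (X ^ (η / 2) / (η / 2)) = 4 / η ^ 2 * X ^ η := by
      have h14 : X ^ η = X ^ (η / 2) * X ^ (η / 2) := by
        rw [← Real.rpow_add hX0]
        congr 1
        ring
      rw [h14]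
      field_simp
      ring
    rw [h13] at h12
    have h15 : X ^ (1 / 2 + η) = X ^ (1 / 2 : ℝ) * X ^ η := Real.rpow_add hX0 _ _
    rw [h15]
    have h16 : 0 ≤ X ^ (1 / 2 : ℝ) := by positivity
    have h17 := mul_le_mul_of_nonneg_left h12 h16
    calc X ^ (1 / 2 : ℝ) * (2 * Real.log X) * Real.log X =
          2 * (X ^ (1 / 2 : ℝ) * (Real.log X * Real.log X)) := by ring
      _ ≤ 2 * (X ^ (1 / 2 : ℝ) * (4 / η ^ 2 * X ^ η)) := by linarith
      _ = 8 / η ^ 2 * (X ^ (1 / 2 : ℝ) * X ^ η) := by ring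
  -- the main term
  have hφ : X / q ≤ X / (Nat.totient q : ℝ) := by
    apply div_le_div_of_nonneg_left hX0.le
    · exact_mod_cast Nat.totient_pos.2 hq1
    · exact_mod_cast Nat.totient_le q
  have h11 := (abs_le.1 hmain).1
  have h12 : X ^ (3 / 4 + η) / Real.sqrt q ≤ X / q / 4 := by
    rw [Real.sqrt_eq_rpow, hpow, ← Real.rpow_sub hq0]
    have h13 : X / q = (q : ℝ) ^ (1 + δ) := by
      rw [hX, div_eq_iff hq0.ne', ← Real.rpow_add_one hq0.ne']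
      congr 1
      ring
    rw [h13, le_div_iff₀ (by norm_num)]
    have h14 : (2 + δ) * (3 / 4 + η) - 1 / 2 + δ / 8 = 1 + δ := by
      have : (2 + δ) * η = δ / 8 := by linarith
      nlinarith
    calc (q : ℝ) ^ ((2 + δ) * (3 / 4 + η) - 1 / 2) * 4 ≤
          (q : ℝ) ^ ((2 + δ) * (3 / 4 + η) - 1 / 2) * (q : ℝ) ^ (δ / 8) :=
          mul_le_mul_of_nonneg_left h2 (by positivity)
      _ = (q : ℝ) ^ (1 + δ) := by rw [← Real.rpow_add hq0, h14]
  have h13 : 8 / η ^ 2 * X ^ (1 / 2 + η) ≤ X / q / 4 := by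
    rw [hpow]
    have h14 : X / q = (q : ℝ) ^ (1 + δ) := by
      rw [hX, div_eq_iff hq0.ne', ← Real.rpow_add_one hq0.ne']
      congr 1
      ring
    rw [h14, le_div_iff₀ (by norm_num)]
    have h15 : (2 + δ) * (1 / 2 + η) + δ / 4 ≤ 1 + δ := by
      have : (2 + δ) * η = δ / 8 := by linarith
      nlinarith
    calc 8 / η ^ 2 * (q : ℝ) ^ ((2 + δ) * (1 / 2 + η)) * 4 =
          (q : ℝ) ^ ((2 + δ) * (1 / 2 + η)) * (4 * (8 / η ^ 2)) := by ring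
      _ ≤ (q : ℝ) ^ ((2 + δ) * (1 / 2 + η)) * (q : ℝ) ^ (δ / 4) :=
          mul_le_mul_of_nonneg_left h3 (by positivity)
      _ = (q : ℝ) ^ ((2 + δ) * (1 / 2 + η) + δ / 4) := by rw [← Real.rpow_add hq0]
      _ ≤ (q : ℝ) ^ (1 + δ) := Real.rpow_le_rpow_of_exponent_le hqr h15
  have h14 : 0 < X / q := by positivity
  linarith

end Pool.Agent.E8helper81.VQ
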