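import Pool.Agent.E8helper81.VQ.Fin

/-!
# Project VQ: the variance for the small moduli and the character sums
-/

set_option autoImplicit false

namespace Pool.Agent.E8helper81.VQ

open Finset Filter Topology

/-- the variance modulo `q` is bounded by the variance modulo `q m` -/
theorem G_lift (X : ℝ) {q m : ℕ} (hq : 0 < q) (hm : 0 < m) :
    G X q ≤ 2 * (m * G X (q * m)) +
      2 * (Nat.log 2 ⌊X⌋₊ * Real.log ((q * m : ℕ) : ℝ)) ^ 2 := by
  classical
  have hQ : 0 < q * m := Nat.mul_pos hq hm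
  have hφq : (0 : ℝ) < Nat.totient q := by exact_mod_cast Nat.totient_pos.2 hq
  have hφQ : (0 : ℝ) < Nat.totient (q * m) := by exact_mod_cast Nat.totient_pos.2 hQ
  obtain ⟨R, hR⟩ : ∃ R, R = (range q).filter (fun a => a.Coprime q) := ⟨_, rfl⟩
  obtain ⟨P, hP⟩ : ∃ P : ℕ → ℝ, P = fun a => ∑ n ∈ (Icc 1 ⌊X⌋₊).filter
    (fun n => n ≡ a [MOD q] ∧ n.Coprime (q * m)), ArithmeticFunction.vonMangoldt n := ⟨_, rfl⟩
  obtain ⟨B, hB⟩ : ∃ B : ℕ → ℝ, B = fun a => ∑ n ∈ (Icc 1 ⌊X⌋₊).filter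
    (fun n => n ≡ a [MOD q] ∧ ¬ n.Coprime (q * m)), ArithmeticFunction.vonMangoldt n := ⟨_, rfl⟩
  have hpsi : ∀ a, psi X q a = P a + B a := by
    intro a
    unfold psi
    rw [hP, hB]
    simp only
    rw [← filter_filter, ← filter_filter, sum_filter_add_sum_filter_not]
  have hB0 : ∀ a, 0 ≤ B a := fun a => by
    rw [hB]
    exact sum_nonneg fun _ _ => ArithmeticFunction.vonMangoldt_nonneg
  -- the good part
  have hgood : ∀ a ∈ R, (P a - X / (Nat.totient q : ℝ)) ^ 2 ≤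
      m * ∑ A ∈ SS q m a, (psi X (q * m) A - X / (Nat.totient (q * m) : ℝ)) ^ 2 := by
    intro a ha
    rw [hR, mem_filter] at ha
    have h1 : P a - X / (Nat.totient q : ℝ) =
        ∑ A ∈ SS q m a, (psi X (q * m) A - X / (Nat.totient (q * m) : ℝ)) := by
      rw [sum_sub_distrib, sum_SS X hq hm, sum_const, nsmul_eq_mul]
      rw [hP]
      simp only
      congr 1
      have h2 : ((SS q m a).card : ℝ) * Nat.totient q = Nat.totient (q * m) := by
        exact_mod_cast card_SS hq hm ha.2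
      rw [← h2]
      have h3 : ((SS q m a).card : ℝ) ≠ 0 := by
        intro h0
        rw [h0, zero_mul] at h2
        exact hφQ.ne h2
      field_simp
    rw [h1]
    refine (sq_sum_le_card_mul_sum_sq).trans ?_
    have h4 : ((SS q m a).card : ℝ) ≤ m := by exact_mod_cast card_SS_le
    exact mul_le_mul_of_nonneg_right h4 (sum_nonneg fun _ _ => sq_nonneg _)
  have hfib : ∑ a ∈ R, ∑ A ∈ SS q m a, (psi X (q * m) A - X / (Nat.totient (q * m) : ℝ)) ^ 2 =
      G X (q * m) := by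
    unfold G
    rw [← sum_fiberwise_of_maps_to (s := (range (q * m)).filter (fun A => A.Coprime (q * m)))
      (t := R) (g := fun A => A % q) (by
        intro A hA
        rw [mem_filter] at hA
        rw [hR, mem_filter]
        refine ⟨mem_range.2 (Nat.mod_lt _ hq), ?_⟩
        have h5 : A.Coprime q := Nat.Coprime.coprime_dvd_right (Dvd.intro m rfl) hA.2
        unfold Nat.Coprime at *
        rw [← Nat.gcd_rec, Nat.gcd_comm]
        exact h5)]
    refine sum_congr rfl fun a ha => sum_congr ?_ fun _ _ => rfl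
    rw [hR, mem_filter, mem_range] at ha
    ext A
    unfold SS
    rw [mem_filter, mem_filter, mem_filter]
    have h4 : A ≡ a [MOD q] ↔ A % q = a := by
      unfold Nat.ModEq
      rw [Nat.mod_eq_of_lt ha.1]
    rw [h4]
    tauto
  -- the bad part
  have hbad : ∑ a ∈ R, B a ≤ Nat.log 2 ⌊X⌋₊ * Real.log ((q * m : ℕ) : ℝ) := by
    refine le_trans (le_of_eq_of_le ?_ (sum_le_sum_of_subset_of_nonneg (s := ((Icc 1 ⌊X⌋₊).filter
      (fun n => ¬ n.Coprime (q * m))).filter (fun n => n % q ∈ R)) (filter_subset _ _)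
      fun _ _ _ => ArithmeticFunction.vonMangoldt_nonneg)) (bad_le ⌊X⌋₊ (q * m) hQ)
    rw [← sum_fiberwise_of_maps_to (s := ((Icc 1 ⌊X⌋₊).filter
      (fun n => ¬ n.Coprime (q * m))).filter (fun n => n % q ∈ R)) (t := R) (g := fun n => n % q)
      (fun n hn => (mem_filter.1 hn).2)]
    refine sum_congr rfl fun a ha => ?_
    rw [hB]
    simp only
    refine sum_congr ?_ fun _ _ => rfl
    have ha2 : a < q := by
      rw [hR, mem_filter, mem_range] at ha
      exact ha.1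
    ext n
    rw [mem_filter, mem_filter, mem_filter, mem_filter]
    have h4 : n ≡ a [MOD q] ↔ n % q = a := by
      unfold Nat.ModEq
      rw [Nat.mod_eq_of_lt ha2]
    rw [h4]
    constructor
    · rintro ⟨h5, h6, h7⟩
      refine ⟨⟨⟨h5, h7⟩, ?_⟩, h6⟩
      rw [h6]
      exact ha
    · rintro ⟨⟨⟨h5, h7⟩, _⟩, h6⟩
      exact ⟨h5, h6, h7⟩
  have hS0 : 0 ≤ ∑ a ∈ R, B a := sum_nonneg fun a _ => hB0 a
  have hbad2 : ∑ a ∈ R, B a ^ 2 ≤ (Nat.log 2 ⌊X⌋₊ * Real.log ((q * m : ℕ) : ℝ)) ^ 2 := by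
    have h1 : ∑ a ∈ R, B a ^ 2 ≤ (∑ a ∈ R, B a) ^ 2 := by
      rw [sq (∑ a ∈ R, B a), sum_mul]
      refine sum_le_sum fun a ha => ?_
      rw [sq]
      exact mul_le_mul_of_nonneg_left (single_le_sum (fun b _ => hB0 b) ha) (hB0 a)
    exact h1.trans (pow_le_pow_left₀ hS0 hbad 2)
  -- together
  have h1 : G X q ≤ ∑ a ∈ R, (2 * (P a - X / (Nat.totient q : ℝ)) ^ 2 + 2 * B a ^ 2) := by
    unfold G
    rw [← hR]
    refine sum_le_sum fun a _ => ?_
    rw [hpsi a]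
    nlinarith [sq_nonneg (P a - X / (Nat.totient q : ℝ) - B a)]
  refine h1.trans ?_
  rw [sum_add_distrib, ← mul_sum, ← mul_sum]
  have h2 : ∑ a ∈ R, (P a - X / (Nat.totient q : ℝ)) ^ 2 ≤ m * G X (q * m) := by
    rw [← hfib, mul_sum]
    exact sum_le_sum hgood
  linarith

/-- the bound for the variance for all the moduli `q ≤ X ^ κ` -/
def PG (κ : ℝ) : Prop := ∀ ε : ℝ, 0 < ε → ∃ X₀ : ℝ, ∀ X : ℝ, X₀ ≤ X → ∀ q : ℕ, 1 ≤ q →
  (q : ℝ) ≤ X ^ κ → G X q ≤ X ^ (1 + κ + ε) / q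

theorem pg_of_ub {κ : ℝ} (h0 : 0 < κ) (h1 : κ < 1) (h : UB κ) : PG κ := by
  intro ε hε
  obtain ⟨X₁, hX₁⟩ := h (ε / 2) (by linarith)
  obtain ⟨X₂, hX₂⟩ : ∃ X₂ : ℝ, ∀ X : ℝ, X₂ ≤ X → 8196 ≤ X ^ (ε / 2) :=
    eventually_atTop.1 ((tendsto_rpow_atTop (by linarith : 0 < ε / 2)).eventually_ge_atTop 8196)
  refine ⟨max (max X₁ X₂) 1, fun X hX q hq hqX => ?_⟩
  have hX1 : X₁ ≤ X := (le_max_left _ _).trans ((le_max_left _ _).trans hX)
  have hX2 : X₂ ≤ X := (le_max_right _ _).trans ((le_max_left _ _).trans hX)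
  have hX3 : 1 ≤ X := (le_max_right _ _).trans hX
  have hX0 : 0 < X := by linarith
  have hq0 : (0 : ℝ) < q := by exact_mod_cast hq
  have hXκ : 0 < X ^ κ := by positivity
  obtain ⟨m, hm⟩ : ∃ m, m = ⌊X ^ κ / q⌋₊ + 1 := ⟨_, rfl⟩
  have hm0 : 0 < m := by omega
  have hm1 : X ^ κ / q < m := by
    rw [hm]
    push_cast
    exact Nat.lt_floor_add_one _
  have hm2 : (m : ℝ) ≤ 2 * (X ^ κ / q) := by
    rw [hm]
    push_cast
    have h2 : (⌊X ^ κ / q⌋₊ : ℝ) ≤ X ^ κ / q := Nat.floor_le (by positivity)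
    have h3 : 1 ≤ X ^ κ / q := by
      rw [le_div_iff₀ hq0, one_mul]
      exact hqX
    linarith
  have hQ1 : X ^ κ < ((q * m : ℕ) : ℝ) := by
    push_cast
    rw [div_lt_iff₀ hq0] at hm1
    linarith
  have hQ2 : ((q * m : ℕ) : ℝ) ≤ 2 * X ^ κ := by
    push_cast
    have h2 := mul_le_mul_of_nonneg_left hm2 hq0.le
    have h3 : (q : ℝ) * (2 * (X ^ κ / q)) = 2 * X ^ κ := by field_simp
    linarith
  have hG := hX₁ X hX1 (q * m) hQ1 hQ2
  have hmain := G_lift X (q := q) hq hm0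
  have hG0 : 0 ≤ G X (q * m) := by
    unfold G
    exact sum_nonneg fun _ _ => sq_nonneg _
  -- the first term
  have h5 : (m : ℝ) * G X (q * m) ≤ 2 * X ^ (1 + κ + ε / 2) / q := by
    have h6 : (m : ℝ) * G X (q * m) ≤ (2 * (X ^ κ / q)) * X ^ (1 + ε / 2) :=
      mul_le_mul hm2 hG hG0 (by positivity)
    refine h6.trans (le_of_eq ?_)
    have h7 : 1 + κ + ε / 2 = κ + (1 + ε / 2) := by ring
    rw [h7, Real.rpow_add hX0 κ (1 + ε / 2)]
    ring
  -- the second term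
  have hXκ1 : X ^ κ ≤ X := by
    calc X ^ κ ≤ X ^ (1 : ℝ) := Real.rpow_le_rpow_of_exponent_le hX3 h1.le
      _ = X := Real.rpow_one X
  have h9 := log_term hX3 (Nat.mul_pos hq hm0) (hQ2.trans (by linarith))
  have hlog0 : 0 ≤ (Nat.log 2 ⌊X⌋₊ : ℝ) * Real.log ((q * m : ℕ) : ℝ) :=
    mul_nonneg (Nat.cast_nonneg _) (Real.log_natCast_nonneg _)
  have h10 : ((Nat.log 2 ⌊X⌋₊ : ℝ) * Real.log ((q * m : ℕ) : ℝ)) ^ 2 ≤
      4096 * X ^ (1 + κ + ε / 2) / q := by
    have h11 := pow_le_pow_left₀ hlog0 h9 2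
    refine h11.trans ?_
    rw [mul_pow, ← Real.rpow_natCast (X ^ _) 2, ← Real.rpow_mul hX0.le]
    have h12 : (1 / 2 : ℝ) * ((2 : ℕ) : ℝ) = 1 := by norm_num
    rw [h12, Real.rpow_one, le_div_iff₀ hq0]
    have h13 : X * q ≤ X ^ (1 + κ + ε / 2) := by
      calc X * q ≤ X ^ (1 : ℝ) * X ^ κ := by
            rw [Real.rpow_one]
            exact mul_le_mul_of_nonneg_left hqX hX0.le
        _ = X ^ (1 + κ) := by rw [← Real.rpow_add hX0]
        _ ≤ X ^ (1 + κ + ε / 2) := Real.rpow_le_rpow_of_exponent_le hX3 (by linarith)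
    nlinarith
  have h13 : G X q ≤ 8196 * X ^ (1 + κ + ε / 2) / q := by
    refine hmain.trans ?_
    have h14 : 8196 * X ^ (1 + κ + ε / 2) / q =
        2 * (2 * X ^ (1 + κ + ε / 2) / q) + 2 * (4096 * X ^ (1 + κ + ε / 2) / q) := by ring
    rw [h14]
    linarith
  refine h13.trans ?_
  apply div_le_div_of_nonneg_right _ hq0.le
  have h15 : X ^ (1 + κ + ε) = X ^ (ε / 2) * X ^ (1 + κ + ε / 2) := by
    rw [← Real.rpow_add hX0]
    congr 1
    ring
  rw [h15]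
  exact mul_le_mul_of_nonneg_right (hX₂ X hX2) (by positivity)

lemma sqrt_pow_div {X : ℝ} (hX : 0 < X) (κ ε : ℝ) (q : ℕ) :
    Real.sqrt (X ^ (1 + κ + 2 * ε) / q) = X ^ ((1 + κ) / 2 + ε) / Real.sqrt q := by
  rw [Real.sqrt_div' _ (Nat.cast_nonneg q)]
  congr 1
  rw [Real.sqrt_eq_rpow, ← Real.rpow_mul hX.le]
  congr 1
  ring

/-- the classes one by one -/
theorem ps_of_pg {κ : ℝ} (h : PG κ) : PS κ := by
  intro ε hε
  obtain ⟨X₁, hX₁⟩ := h (2 * ε) (by linarith)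
  refine ⟨max X₁ 1, fun X hX q a hq hqX ha => ?_⟩
  have hX1 : X₁ ≤ X := (le_max_left _ _).trans hX
  have hX3 : 1 ≤ X := (le_max_right _ _).trans hX
  have hX0 : 0 < X := by linarith
  have hG := hX₁ X hX1 q hq hqX
  have h1 : psi X q a = psi X q (a % q) := by
    unfold psi
    refine sum_congr (filter_congr fun n _ => ?_) fun _ _ => rfl
    unfold Nat.ModEq
    rw [Nat.mod_mod]
  have h2 : (psi X q (a % q) - X / (Nat.totient q : ℝ)) ^ 2 ≤ G X q := by
    unfold G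
    refine single_le_sum (f := fun a => (psi X q a - X / (Nat.totient q : ℝ)) ^ 2)
      (fun _ _ => sq_nonneg _) ?_
    rw [mem_filter]
    refine ⟨mem_range.2 (Nat.mod_lt _ hq), ?_⟩
    unfold Nat.Coprime at *
    rw [← Nat.gcd_rec, Nat.gcd_comm]
    exact ha
  rw [h1, ← sqrt_pow_div hX0]
  exact Real.abs_le_sqrt (h2.trans hG)

/-- the character sums -/
def PC (κ : ℝ) : Prop := ∀ ε : ℝ, 0 < ε → ∃ X₀ : ℝ, ∀ X : ℝ, X₀ ≤ X → ∀ q : ℕ, 1 ≤ q →
  (q : ℝ) ≤ X ^ κ → ∀ χ : DirichletCharacter ℂ q, χ ≠ 1 →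
    ‖∑ n ∈ Icc 1 ⌊X⌋₊, χ (n : ZMod q) * (ArithmeticFunction.vonMangoldt n : ℂ)‖ ≤
      X ^ ((1 + κ) / 2 + ε)

theorem pc_of_pg {κ : ℝ} (h : PG κ) : PC κ := by
  intro ε hε
  obtain ⟨X₁, hX₁⟩ := h (2 * ε) (by linarith)
  refine ⟨max X₁ 1, fun X hX q hq hqX χ hχ => ?_⟩
  have : NeZero q := ⟨by omega⟩
  have hX1 : X₁ ≤ X := (le_max_left _ _).trans hX
  have hX3 : 1 ≤ X := (le_max_right _ _).trans hX
  have hX0 : 0 < X := by linarith
  have hq0 : (0 : ℝ) < q := by exact_mod_cast hq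
  have hG := hX₁ X hX1 q hq hqX
  have hfl : ∀ a, psi (⌊X⌋₊ : ℝ) q a = psi X q a := by
    intro a
    unfold psi
    rw [Nat.floor_natCast]
  have h3 : ∑ k ∈ Icc 1 ⌊X⌋₊, χ (k : ZMod q) * (ArithmeticFunction.vonMangoldt k : ℂ) =
      ∑ a ∈ (range q).filter (fun a => a.Coprime q),
        χ (a : ZMod q) * ((psi X q a - X / (Nat.totient q : ℝ) : ℝ) : ℂ) := by
    have h4 := sum_char_coprime χ hχ
    have h5 : ∑ a ∈ (range q).filter (fun a => a.Coprime q),
        χ (a : ZMod q) * ((psi X q a - X / (Nat.totient q : ℝ) : ℝ) : ℂ) =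
        ∑ a ∈ (range q).filter (fun a => a.Coprime q), χ (a : ZMod q) * ((psi X q a : ℝ) : ℂ) -
        (∑ a ∈ (range q).filter (fun a => a.Coprime q), χ (a : ZMod q)) *
          ((X / (Nat.totient q : ℝ) : ℝ) : ℂ) := by
      rw [sum_mul, ← sum_sub_distrib]
      refine sum_congr rfl fun a _ => ?_
      rw [Complex.ofReal_sub]
      ring
    rw [h5, h4, zero_mul, sub_zero, sum_char χ ⌊X⌋₊]
    refine sum_congr rfl fun a _ => ?_
    rw [hfl]
  rw [h3]
  have h4 : ‖∑ a ∈ (range q).filter (fun a => a.Coprime q),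
      χ (a : ZMod q) * ((psi X q a - X / (Nat.totient q : ℝ) : ℝ) : ℂ)‖ ≤
      ∑ a ∈ (range q).filter (fun a => a.Coprime q), |psi X q a - X / (Nat.totient q : ℝ)| := by
    refine (norm_sum_le _ _).trans (sum_le_sum fun a _ => ?_)
    rw [norm_mul, Complex.norm_real, Real.norm_eq_abs]
    have h5 : ‖χ (a : ZMod q)‖ ≤ 1 := DirichletCharacter.norm_le_one χ _
    calc ‖χ (a : ZMod q)‖ * |psi X q a - X / (Nat.totient q : ℝ)| ≤
          1 * |psi X q a - X / (Nat.totient q : ℝ)| :=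
          mul_le_mul_of_nonneg_right h5 (abs_nonneg _)
      _ = _ := one_mul _
  refine h4.trans ?_
  have h5 : (∑ a ∈ (range q).filter (fun a => a.Coprime q),
      |psi X q a - X / (Nat.totient q : ℝ)|) ^ 2 ≤ q * G X q := by
    refine (sq_sum_le_card_mul_sum_sq).trans ?_
    have h6 : (((range q).filter (fun a => a.Coprime q)).card : ℝ) ≤ q := by
      have := card_filter_le (range q) (fun a => a.Coprime q)
      rw [card_range] at this
      exact_mod_cast this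
    have h7 : ∑ a ∈ (range q).filter (fun a => a.Coprime q),
        |psi X q a - X / (Nat.totient q : ℝ)| ^ 2 = G X q := by
      unfold G
      refine sum_congr rfl fun a _ => ?_
      rw [sq_abs]
    rw [h7]
    have hG0 : 0 ≤ G X q := by
      unfold G
      exact sum_nonneg fun _ _ => sq_nonneg _
    exact mul_le_mul_of_nonneg_right h6 hG0
  have h6 : (q : ℝ) * G X q ≤ (X ^ ((1 + κ) / 2 + ε)) ^ 2 := by
    have h7 : (q : ℝ) * G X q ≤ q * (X ^ (1 + κ + 2 * ε) / q) :=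
      mul_le_mul_of_nonneg_left hG hq0.le
    refine h7.trans (le_of_eq ?_)
    rw [mul_div_cancel₀ _ hq0.ne', ← Real.rpow_natCast (X ^ _) 2, ← Real.rpow_mul hX0.le]
    congr 1
    push_cast
    ring
  exact (le_abs_self _).trans (abs_le_of_sq_le_sq (h5.trans h6) (by positivity))

end Pool.Agent.E8helper81.VQ
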